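import Pool.Agent.Helper41K9.E3.Tri0

set_option autoImplicit false

/-!
# Trigonometric polynomials are dense in `C^2`
-/

namespace Pool.Agent.Helper41K9.E3T

open Set Filter Topology MeasureTheory
open scoped ContDiff
open Pool.Agent.Helper6K9.ES (Q E Per Sm dX dT Small)
open Pool.Agent.Helper6K9.E3 (TP S_TRI)

variable {m : ℕ}

lemma tri0 {X : Type} [SeminormedAddCommGroup X] (x : X) {a : ℝ} (h : 0 ≤ a) : ‖x - x‖ ≤ a := by
  simpa using h

lemma tri3 {X : Type} [SeminormedAddCommGroup X] {x y z : X} {a b : ℝ} (h1 : ‖y - x‖ ≤ a)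
    (h2 : ‖z - y‖ ≤ b) : ‖z - x‖ ≤ a + b := by
  calc ‖z - x‖ = ‖(y - x) + (z - y)‖ := by congr 1; abel
    _ ≤ _ := (norm_add_le _ _).trans (add_le_add h1 h2)

lemma tri4 {X : Type} [SeminormedAddCommGroup X] {x y x' y' : X} {a b : ℝ} (h1 : ‖y - x‖ ≤ a)
    (h2 : ‖y' - x'‖ ≤ b) : ‖(y + y') - (x + x')‖ ≤ a + b := by
  rw [add_sub_add_comm]
  exact (norm_add_le _ _).trans (add_le_add h1 h2)

section gen
variable {V : Type} [NormedAddCommGroup V] [NormedSpace ℝ V]

omit [NormedSpace ℝ V] in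
lemma perV_bdd {F : E m → V} (hF : Continuous F) (hP : PerV F) : ∃ C : ℝ, ∀ p, ‖F p‖ ≤ C := by
  have hc : IsCompact (Icc (0 : E m) 1) := isCompact_Icc
  obtain ⟨C, hC⟩ := hc.exists_bound_of_continuousOn hF.continuousOn
  refine ⟨C, fun p => ?_⟩
  have h1 := hP ((fun i => Int.fract (p.1 i)), Int.fract p.2) (fun i => ⌊p.1 i⌋) ⌊p.2⌋
  have h2 : ((((fun i => Int.fract (p.1 i)), Int.fract p.2) : E m).1 + (fun i => ((⌊p.1 i⌋ : ℤ) : ℝ)),
      (((fun i => Int.fract (p.1 i)), Int.fract p.2) : E m).2 + (⌊p.2⌋ : ℝ)) = p := by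
    refine Prod.ext ?_ ?_
    · funext i
      exact Int.fract_add_floor _
    · exact Int.fract_add_floor _
  rw [h2] at h1
  rw [h1]
  apply hC
  refine ⟨⟨fun i => Int.fract_nonneg _, Int.fract_nonneg _⟩,
    ⟨fun i => (Int.fract_lt_one _).le, (Int.fract_lt_one _).le⟩⟩

lemma perV_fderiv {F : E m → V} (hP : PerV F) : PerV (fderiv ℝ F) := by
  intro p k l
  have h1 : (fun x : E m => F (x + ((fun i => (k i : ℝ)), (l : ℝ)))) = F :=
    funext fun x => hP x k l
  have h2 : fderiv ℝ (fun x : E m => F (x + ((fun i => (k i : ℝ)), (l : ℝ)))) p =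
      fderiv ℝ F (p + ((fun i => (k i : ℝ)), (l : ℝ))) := fderiv_comp_add_right _
  rw [h1] at h2
  exact h2.symm

lemma perV_A {w : ℝ → ℝ} (i : Fin (m + 1)) {F : E m → V} (hP : PerV F) : PerV (A w i F) := by
  intro p k l
  unfold A
  congr 1
  funext s
  congr 1
  have h := hP (p + s • ev i) k l
  rw [← h]
  congr 1
  refine Prod.ext ?_ ?_
  · simp only [Prod.fst_add]; abel
  · simp only [Prod.snd_add]; abel

lemma lip {F : E m → V} (hF : ContDiff ℝ 1 F) {C : ℝ} (hC : ∀ p, ‖fderiv ℝ F p‖ ≤ C)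
    (i : Fin (m + 1)) (p : E m) (s : ℝ) : ‖F (p + s • ev i) - F p‖ ≤ C * |s| := by
  have hC0 : 0 ≤ C := (norm_nonneg _).trans (hC p)
  have h := Convex.norm_image_sub_le_of_norm_fderiv_le (𝕜 := ℝ) (f := F) (s := univ) (C := C)
    (fun x _ => hF.differentiable (by norm_num) x) (fun x _ => hC x) convex_univ
    (mem_univ p) (mem_univ (p + s • ev i))
  refine h.trans ?_
  rw [add_sub_cancel_left, norm_smul, Real.norm_eq_abs]
  exact mul_le_mul_of_nonneg_left
    (mul_le_of_le_one_right (abs_nonneg s) (norm_ev i)) hC0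

lemma A_sub {F : E m → V} [CompleteSpace V] (hF : ContDiff ℝ 1 F) {C : ℝ}
    (hC : ∀ p, ‖fderiv ℝ F p‖ ≤ C) (i : Fin (m + 1)) (N : ℕ) (p : E m) :
    ‖A (ker N) i F p - F p‖ ≤ C * ∫ s in (-(1 / 2) : ℝ)..(1 / 2), ker N s * |s| := by
  have hk := ker_cont N
  have hFc := hF.continuous
  have h1 : F p = ∫ s in (-(1 / 2) : ℝ)..(1 / 2), ker N s • F p := by
    rw [intervalIntegral.integral_smul_const, ker_int, one_smul]
  have h2 : A (ker N) i F p - F p =
      ∫ s in (-(1 / 2) : ℝ)..(1 / 2), ker N s • (F (p + s • ev i) - F p) := by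
    conv_lhs => rw [h1]
    unfold A
    rw [← intervalIntegral.integral_sub]
    · simp only [smul_sub]
    · exact (by fun_prop : Continuous fun s : ℝ =>
        ker N s • F (p + s • ev i)).intervalIntegrable _ _
    · exact (by fun_prop : Continuous fun s : ℝ => ker N s • F p).intervalIntegrable _ _
  rw [h2, ← intervalIntegral.integral_const_mul]
  refine intervalIntegral.norm_integral_le_of_norm_le (by norm_num) ?_ ?_
  · refine Eventually.of_forall fun s _ => ?_
    rw [norm_smul, Real.norm_eq_abs, abs_of_nonneg (ker_nonneg N s)]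
    calc ker N s * ‖F (p + s • ev i) - F p‖ ≤ ker N s * (C * |s|) :=
          mul_le_mul_of_nonneg_left (lip hF hC i p s) (ker_nonneg N s)
      _ = C * (ker N s * |s|) := by ring
  · exact (by fun_prop : Continuous fun s : ℝ => C * (ker N s * |s|)).intervalIntegrable _ _

lemma A_near [CompleteSpace V] {F : E m → V} (hF : ContDiff ℝ 1 F) (hP : PerV F)
    (i : Fin (m + 1)) {ε : ℝ} (hε : 0 < ε) :
    ∀ᶠ N : ℕ in atTop, ∀ p, ‖A (ker N) i F p - F p‖ ≤ ε := by
  obtain ⟨C, hC⟩ := perV_bdd (hF.continuous_fderiv (by norm_num)) (perV_fderiv hP)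
  have h := (ker_tendsto.const_mul C)
  rw [mul_zero] at h
  filter_upwards [h.eventually_le_const hε] with N hN p
  exact (A_sub hF hC i N p).trans hN

/-- `G` and its first two derivatives are close to those of `F` -/
def Cl (F G : E m → V) (ε : ℝ) : Prop :=
  ∀ p, ‖G p - F p‖ ≤ ε ∧ ‖fderiv ℝ G p - fderiv ℝ F p‖ ≤ ε ∧
    ‖fderiv ℝ (fderiv ℝ G) p - fderiv ℝ (fderiv ℝ F) p‖ ≤ ε

lemma Cl.trans {F G H : E m → V} {a b : ℝ} (h1 : Cl F G a) (h2 : Cl G H b) :
    Cl F H (a + b) := by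
  intro p
  obtain ⟨a1, a2, a3⟩ := h1 p
  obtain ⟨b1, b2, b3⟩ := h2 p
  exact ⟨tri3 a1 b1, tri3 a2 b2, tri3 (X := E m →L[ℝ] E m →L[ℝ] V) a3 b3⟩

lemma fderiv_add' {F G : E m → V} (hF : ContDiff ℝ ∞ F) (hG : ContDiff ℝ ∞ G) :
    fderiv ℝ (F + G) = fderiv ℝ F + fderiv ℝ G :=
  funext fun p => fderiv_add (hF.differentiable (by simp) p) (hG.differentiable (by simp) p)

lemma smooth_fderiv {F : E m → V} (hF : ContDiff ℝ ∞ F) : ContDiff ℝ ∞ (fderiv ℝ F) :=
  hF.fderiv_right (by simp)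

lemma Cl.add {F G F' G' : E m → V} {a b : ℝ} (hF : ContDiff ℝ ∞ F) (hG : ContDiff ℝ ∞ G)
    (hF' : ContDiff ℝ ∞ F') (hG' : ContDiff ℝ ∞ G') (h1 : Cl F G a) (h2 : Cl F' G' b) :
    Cl (F + F') (G + G') (a + b) := by
  intro p
  obtain ⟨a1, a2, a3⟩ := h1 p
  obtain ⟨b1, b2, b3⟩ := h2 p
  rw [fderiv_add' hF hF', fderiv_add' hG hG', fderiv_add' (smooth_fderiv hF) (smooth_fderiv hF'),
    fderiv_add' (smooth_fderiv hG) (smooth_fderiv hG')]
  exact ⟨tri4 a1 b1, tri4 a2 b2, tri4 (X := E m →L[ℝ] E m →L[ℝ] V) a3 b3⟩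

end gen

lemma A_cl {F : E m → ℂ} (hF : ContDiff ℝ ∞ F) (hP : PerV F)
    (i : Fin (m + 1)) {ε : ℝ} (hε : 0 < ε) :
    ∀ᶠ N : ℕ in atTop, Cl F (A (ker N) i F) ε := by
  have h1 : ∀ {V : Type} [NormedAddCommGroup V] [NormedSpace ℝ V] {F : E m → V},
    ContDiff ℝ ∞ F → ContDiff ℝ 1 F := fun h => h.of_le (by norm_num)
  have hF1 := smooth_fderiv hF
  have hF2 := smooth_fderiv hF1
  filter_upwards [A_near (h1 hF) hP i hε, A_near (h1 hF1) (perV_fderiv hP) i hε,
    A_near (h1 hF2) (perV_fderiv (perV_fderiv hP)) i hε] with N e1 e2 e3 p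
  rw [fderiv_A (ker_cont N) i (h1 hF), fderiv_A (ker_cont N) i (h1 hF1)]
  exact ⟨e1 p, e2 p, e3 p⟩

/-! ### the frequencies -/

/-- the part of frequency `l` in the direction of `x i` -/
noncomputable def P (l : ℤ) (i : Fin (m + 1)) (G : E m → ℂ) (p : E m) : ℂ :=
  ∫ s in (-(1 / 2) : ℝ)..(1 / 2),
    Complex.exp (-(2 * Real.pi * l * s * Complex.I)) * G (p + s • ev i)

lemma P_eq (l : ℤ) (i : Fin (m + 1)) {G : E m → ℂ} (hG : Continuous G) :
    P l i G = fun p => A (fun s => Real.cos (2 * Real.pi * l * s)) i G p -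
      Complex.I * A (fun s => Real.sin (2 * Real.pi * l * s)) i G p := by
  funext p
  unfold P A
  rw [← intervalIntegral.integral_const_mul, ← intervalIntegral.integral_sub]
  · congr 1
    funext s
    have h : Complex.exp (-(2 * Real.pi * l * s * Complex.I)) =
        (Real.cos (2 * Real.pi * l * s) : ℂ) - Complex.I * (Real.sin (2 * Real.pi * l * s) : ℂ) := by
      rw [← neg_mul, Complex.exp_mul_I]
      push_cast
      rw [Complex.cos_neg, Complex.sin_neg]
      ring
    rw [h]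
    simp only [Complex.real_smul]
    ring
  · exact (by fun_prop : Continuous fun s : ℝ =>
      Real.cos (2 * Real.pi * l * s) • G (p + s • ev i)).intervalIntegrable _ _
  · exact (by fun_prop : Continuous fun s : ℝ =>
      Complex.I * Real.sin (2 * Real.pi * l * s) • G (p + s • ev i)).intervalIntegrable _ _

lemma P_smooth (l : ℤ) (i : Fin (m + 1)) {G : E m → ℂ} (hG : ContDiff ℝ ∞ G) :
    ContDiff ℝ ∞ (P l i G) := by
  rw [P_eq l i hG.continuous]
  exact (contDiff_A (by fun_prop) i hG).sub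
    (contDiff_const.mul (contDiff_A (by fun_prop) i hG))

lemma P_per (l : ℤ) (i : Fin (m + 1)) {G : E m → ℂ} (hP : PerV G) : PerV (P l i G) := by
  intro p k j
  unfold P
  congr 1
  funext s
  congr 1
  have h := hP (p + s • ev i) k j
  rw [← h]
  congr 1
  refine Prod.ext ?_ ?_
  · simp only [Prod.fst_add]; abel
  · simp only [Prod.snd_add]; abel

lemma P_hom_self (l : ℤ) (i : Fin (m + 1)) {G : E m → ℂ} (hP : PerV G) (p : E m) (u : ℝ) :
    P l i G (p + u • ev i) = Complex.exp (2 * Real.pi * l * u * Complex.I) * P l i G p := by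
  have hper : Function.Periodic (fun s : ℝ =>
      Complex.exp (-(2 * Real.pi * l * s * Complex.I)) * G (p + s • ev i)) 1 := by
    intro s
    have h1 : Complex.exp (-(2 * Real.pi * l * ((s + 1 : ℝ) : ℂ) * Complex.I)) =
        Complex.exp (-(2 * Real.pi * l * s * Complex.I)) := by
      have : -(2 * Real.pi * l * ((s + 1 : ℝ) : ℂ) * Complex.I) =
          -(2 * Real.pi * l * s * Complex.I) - (l : ℂ) * (2 * Real.pi * Complex.I) := by
        push_cast; ring
      rw [this]
      exact Complex.exp_periodic.sub_int_mul_eq l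
    have h2 : G (p + (s + 1) • ev i) = G (p + s • ev i) := by
      have h := hP (p + s • ev i) (Pi.single i 1) 0
      rw [← h]
      congr 1
      refine Prod.ext ?_ ?_
      · funext j
        by_cases hj : j = i
        · subst hj
          simp [ev]
          ring
        · simp [ev, Pi.single_eq_of_ne hj]
      · simp [ev]
    simp only []
    rw [h1, h2]
  have h3 := hper.intervalIntegral_add_eq (-(1 / 2) + u) (-(1 / 2))
  unfold P
  rw [← intervalIntegral.integral_const_mul]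
  have h4 : ∀ s : ℝ, Complex.exp (-(2 * Real.pi * l * s * Complex.I)) * G (p + u • ev i + s • ev i) =
      Complex.exp (2 * Real.pi * l * u * Complex.I) *
        ((fun s : ℝ => Complex.exp (-(2 * Real.pi * l * s * Complex.I)) * G (p + s • ev i))
          (s + u)) := by
    intro s
    simp only []
    rw [← mul_assoc, ← Complex.exp_add]
    congr 1
    · congr 1
      push_cast; ring
    · congr 1
      rw [add_smul]; abel
  rw [intervalIntegral.integral_congr (fun s _ => h4 s), intervalIntegral.integral_const_mul,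
    intervalIntegral.integral_const_mul]
  congr 1
  rw [intervalIntegral.integral_comp_add_right
    (fun s : ℝ => Complex.exp (-(2 * Real.pi * l * s * Complex.I)) * G (p + s • ev i))]
  rw [show (-(1 / 2) : ℝ) + u + 1 = 1 / 2 + u by ring,
    show (-(1 / 2) : ℝ) + 1 = 1 / 2 by norm_num] at h3
  exact h3

lemma P_hom (l : ℤ) (i j : Fin (m + 1)) {G : E m → ℂ} (k : ℤ)
    (h : ∀ (p : E m) (u : ℝ), G (p + u • ev j) =
      Complex.exp (2 * Real.pi * k * u * Complex.I) * G p) (p : E m) (u : ℝ) :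
    P l i G (p + u • ev j) = Complex.exp (2 * Real.pi * k * u * Complex.I) * P l i G p := by
  unfold P
  rw [← intervalIntegral.integral_const_mul]
  congr 1
  funext s
  rw [add_right_comm, h]
  ring

/-- functions of one frequency in the directions in `T` -/
def W (T : Finset (Fin (m + 1))) : Set (E m → ℂ) :=
  {G | ContDiff ℝ ∞ G ∧ PerV G ∧ ∃ k : Fin (m + 1) → ℤ, ∀ i ∈ T, ∀ (p : E m) (u : ℝ),
    G (p + u • ev i) = Complex.exp (2 * Real.pi * k i * u * Complex.I) * G p}

lemma mem_smooth (T : Finset (Fin (m + 1))) {F : E m → ℂ} (hF : F ∈ AddSubmonoid.closure (W T)) :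
    ContDiff ℝ ∞ F ∧ PerV F := by
  induction hF using AddSubmonoid.closure_induction with
  | mem x hx => exact ⟨hx.1, hx.2.1⟩
  | zero => exact ⟨contDiff_const, fun _ _ _ => rfl⟩
  | add x y _ _ h1 h2 =>
    refine ⟨h1.1.add h2.1, fun p k l => ?_⟩
    simp only [Pi.add_apply]
    rw [h1.2, h2.2]

lemma ker_expand (N : ℕ) (s : ℝ) : (ker N s : ℂ) =
    ∑ j ∈ Finset.range (2 * N + 1), ((I0 N)⁻¹ * (1 / 2) ^ (2 * N) * (Nat.choose (2 * N) j : ℂ)) *
      Complex.exp (-(2 * Real.pi * (((j : ℤ) - N : ℤ) : ℂ) * s * Complex.I)) := by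
  unfold ker
  have h1 : ((Real.cos (Real.pi * s) : ℝ) : ℂ) =
      (1 / 2) * (Complex.exp (-(Real.pi * s * Complex.I)) + Complex.exp (Real.pi * s * Complex.I)) := by
    rw [Complex.ofReal_cos, Complex.cos]
    push_cast
    ring_nf
  push_cast
  rw [← pow_mul]
  rw [← Complex.ofReal_mul, ← Complex.ofReal_cos, h1, mul_pow, add_pow, Finset.mul_sum,
    Finset.mul_sum]
  refine Finset.sum_congr rfl fun j hj => ?_
  have hj' : j ≤ 2 * N := Nat.lt_succ_iff.1 (Finset.mem_range.1 hj)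
  rw [← Complex.exp_nat_mul, ← Complex.exp_nat_mul]
  have h2 : Complex.exp (-(2 * Real.pi * ((j : ℂ) - N) * s * Complex.I)) =
      Complex.exp (j * -(Real.pi * s * Complex.I)) *
        Complex.exp (((2 * N - j : ℕ) : ℂ) * (Real.pi * s * Complex.I)) := by
    rw [← Complex.exp_add]
    congr 1
    rw [Nat.cast_sub hj']
    push_cast
    ring
  rw [h2]
  ring

lemma A_ker_eq (N : ℕ) (i : Fin (m + 1)) {G : E m → ℂ} (hG : Continuous G) :
    A (ker N) i G = ∑ j ∈ Finset.range (2 * N + 1), fun p =>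
      ((I0 N)⁻¹ * (1 / 2) ^ (2 * N) * (Nat.choose (2 * N) j : ℂ)) * P ((j : ℤ) - N) i G p := by
  funext p
  rw [Finset.sum_apply]
  unfold A P
  simp_rw [← intervalIntegral.integral_const_mul]
  rw [← intervalIntegral.integral_finsetSum]
  · congr 1
    funext s
    rw [Complex.real_smul, ker_expand, Finset.sum_mul]
    refine Finset.sum_congr rfl fun j _ => ?_
    ring
  · intro j _
    have hcc : Continuous fun s : ℝ =>
      ((((I0 N)⁻¹ : ℝ) : ℂ) * (1 / 2) ^ (2 * N) * (Nat.choose (2 * N) j : ℂ)) *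
        (Complex.exp (-(2 * Real.pi * (((j : ℤ) - N : ℤ) : ℂ) * s * Complex.I)) *
          G (p + s • ev i)) := by fun_prop
    exact hcc.intervalIntegrable (μ := volume) _ _

lemma step_gen (T : Finset (Fin (m + 1))) (j : Fin (m + 1)) {G : E m → ℂ} (hG : G ∈ W T) (N : ℕ) :
    A (ker N) j G ∈ AddSubmonoid.closure (W (insert j T)) := by
  obtain ⟨h1, h2, k, h3⟩ := hG
  rw [A_ker_eq N j h1.continuous]
  refine AddSubmonoid.sum_mem _ fun a _ => AddSubmonoid.subset_closure ?_
  refine ⟨contDiff_const.mul (P_smooth _ j h1), fun p q r => ?_,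
    Function.update k j ((a : ℤ) - N), fun i hi p u => ?_⟩
  · simp only []
    rw [P_per _ j h2]
  · simp only []
    by_cases hij : i = j
    · subst hij
      rw [Function.update_self, P_hom_self _ i h2]
      ring
    · rw [Function.update_of_ne hij]
      rw [P_hom _ j i (k i) (h3 i (Finset.mem_of_mem_insert_of_ne hi hij))]
      ring

lemma step_cl (T : Finset (Fin (m + 1))) (j : Fin (m + 1)) {F : E m → ℂ}
    (hF : F ∈ AddSubmonoid.closure (W T)) :
    ∀ ε : ℝ, 0 < ε → ∃ F' ∈ AddSubmonoid.closure (W (insert j T)), Cl F F' ε := by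
  induction hF using AddSubmonoid.closure_induction with
  | mem x hx =>
    intro ε hε
    obtain ⟨N, hN⟩ := (A_cl hx.1 hx.2.1 j hε).exists
    exact ⟨_, step_gen T j hx N, hN⟩
  | zero =>
    intro ε hε
    exact ⟨0, AddSubmonoid.zero_mem _, fun p => ⟨tri0 _ hε.le, tri0 _ hε.le, tri0 (X := E m →L[ℝ] E m →L[ℝ] ℂ) _ hε.le⟩⟩
  | add x y hx hy h1 h2 =>
    intro ε hε
    obtain ⟨F1, hF1, hc1⟩ := h1 (ε / 2) (half_pos hε)
    obtain ⟨F2, hF2, hc2⟩ := h2 (ε / 2) (half_pos hε)
    refine ⟨F1 + F2, AddSubmonoid.add_mem _ hF1 hF2, ?_⟩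
    have h := Cl.add (mem_smooth T hx).1 (mem_smooth _ hF1).1 (mem_smooth T hy).1
      (mem_smooth _ hF2).1 hc1 hc2
    rwa [add_halves] at h

lemma all_cl {F : E m → ℂ} (h1 : ContDiff ℝ ∞ F) (h2 : PerV F) (T : Finset (Fin (m + 1))) :
    ∀ ε : ℝ, 0 < ε → ∃ F' ∈ AddSubmonoid.closure (W T), Cl F F' ε := by
  induction T using Finset.induction_on with
  | empty =>
    intro ε hε
    refine ⟨F, AddSubmonoid.subset_closure ⟨h1, h2, 0, fun i hi => absurd hi (by simp)⟩,
      fun p => ⟨tri0 _ hε.le, tri0 _ hε.le, tri0 (X := E m →L[ℝ] E m →L[ℝ] ℂ) _ hε.le⟩⟩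
  | insert j T _ ih =>
    intro ε hε
    obtain ⟨F1, hF1, hc1⟩ := ih (ε / 2) (half_pos hε)
    obtain ⟨F2, hF2, hc2⟩ := step_cl T j hF1 (ε / 2) (half_pos hε)
    refine ⟨F2, hF2, ?_⟩
    have h := hc1.trans hc2
    rwa [add_halves] at h

/-! ### the result is a trigonometric polynomial -/

lemma W_univ_eq {G : E m → ℂ} {k : Fin (m + 1) → ℤ}
    (h : ∀ i : Fin (m + 1), ∀ (p : E m) (u : ℝ),
      G (p + u • ev i) = Complex.exp (2 * Real.pi * k i * u * Complex.I) * G p) (p : E m) :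
    G p = Complex.exp (2 * Real.pi * (∑ i, (k i : ℝ) * p.1 i : ℝ) * Complex.I) * G (0, p.2) := by
  have key : ∀ (T : Finset (Fin (m + 1))) (q : E m), G (q + ∑ i ∈ T, p.1 i • ev i) =
      Complex.exp (2 * Real.pi * (∑ i ∈ T, (k i : ℝ) * p.1 i : ℝ) * Complex.I) * G q := by
    intro T
    induction T using Finset.induction_on with
    | empty => intro q; simp
    | insert j T hj ih =>
      intro q
      rw [Finset.sum_insert hj, Finset.sum_insert hj, add_comm (p.1 j • ev j), ← add_assoc, h, ih,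
        ← mul_assoc, ← Complex.exp_add]
      congr 2
      push_cast
      ring
  have h1 := key Finset.univ (0, p.2)
  have h2 : ((0, p.2) : E m) + ∑ i, p.1 i • ev i = p := by
    refine Prod.ext ?_ ?_
    · rw [Prod.fst_add, Prod.fst_sum]
      funext j
      simp [ev, Finset.sum_apply, Pi.single_apply]
    · rw [Prod.snd_add, Prod.snd_sum]
      simp [ev]
  rw [h2] at h1
  exact h1

lemma TP_zero : TP (m := m) {k | ∀ i, |k i| ≤ ((0 : ℕ) : ℤ)} (fun _ => 0) :=
  ⟨∅, fun _ _ => 0, fun _ _ => 0, by simp,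
    fun _ => ⟨contDiff_const, contDiff_const, fun _ => rfl, fun _ => rfl⟩, by simp⟩

lemma TP_add {N M : ℕ} {F G : E m → ℝ} (hF : TP {k | ∀ i, |k i| ≤ (N : ℤ)} F)
    (hG : TP {k | ∀ i, |k i| ≤ (M : ℤ)} G) :
    TP {k | ∀ i, |k i| ≤ ((max N M : ℕ) : ℤ)} (fun p => F p + G p) := by
  classical
  obtain ⟨s, c, d, h1, h2, h3⟩ := hF
  obtain ⟨s', c', d', h1', h2', h3'⟩ := hG
  refine ⟨s ∪ s', fun k => (if k ∈ s then c k else 0) + (if k ∈ s' then c' k else 0),
    fun k => (if k ∈ s then d k else 0) + (if k ∈ s' then d' k else 0), ?_, ?_, ?_⟩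
  · intro k hk i
    rcases Finset.mem_union.1 hk with hk | hk
    · exact (h1 k hk i).trans (by exact_mod_cast le_max_left _ _)
    · exact (h1' k hk i).trans (by exact_mod_cast le_max_right _ _)
  · intro k
    obtain ⟨a1, a2, a3, a4⟩ := h2 k
    obtain ⟨b1, b2, b3, b4⟩ := h2' k
    refine ⟨ContDiff.add ?_ ?_, ContDiff.add ?_ ?_, fun t => ?_, fun t => ?_⟩
    · split_ifs <;> first | exact a1 | exact contDiff_const
    · split_ifs <;> first | exact b1 | exact contDiff_const
    · split_ifs <;> first | exact a2 | exact contDiff_const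
    · split_ifs <;> first | exact b2 | exact contDiff_const
    · simp only [Pi.add_apply]
      split_ifs <;> simp [a3, b3]
    · simp only [Pi.add_apply]
      split_ifs <;> simp [a4, b4]
  · intro p
    simp only []
    rw [h3, h3']
    have e1 : ∑ k ∈ s, (c k p.2 * Real.cos (2 * Real.pi * ∑ i, (k i : ℝ) * p.1 i) +
        d k p.2 * Real.sin (2 * Real.pi * ∑ i, (k i : ℝ) * p.1 i)) =
        ∑ k ∈ s ∪ s', ((if k ∈ s then c k else 0) p.2 *
          Real.cos (2 * Real.pi * ∑ i, (k i : ℝ) * p.1 i) +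
        (if k ∈ s then d k else 0) p.2 * Real.sin (2 * Real.pi * ∑ i, (k i : ℝ) * p.1 i)) := by
      rw [← Finset.sum_subset (Finset.subset_union_left (s₁ := s) (s₂ := s'))]
      · exact Finset.sum_congr rfl fun k hk => by simp [hk]
      · intro k _ hk
        simp [hk]
    have e2 : ∑ k ∈ s', (c' k p.2 * Real.cos (2 * Real.pi * ∑ i, (k i : ℝ) * p.1 i) +
        d' k p.2 * Real.sin (2 * Real.pi * ∑ i, (k i : ℝ) * p.1 i)) =
        ∑ k ∈ s ∪ s', ((if k ∈ s' then c' k else 0) p.2 *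
          Real.cos (2 * Real.pi * ∑ i, (k i : ℝ) * p.1 i) +
        (if k ∈ s' then d' k else 0) p.2 * Real.sin (2 * Real.pi * ∑ i, (k i : ℝ) * p.1 i)) := by
      rw [← Finset.sum_subset (Finset.subset_union_right (s₁ := s) (s₂ := s'))]
      · exact Finset.sum_congr rfl fun k hk => by simp [hk]
      · intro k _ hk
        simp [hk]
    rw [e1, e2, ← Finset.sum_add_distrib]
    refine Finset.sum_congr rfl fun k _ => ?_
    simp only [Pi.add_apply]
    ring

lemma tp_of_mem {F : E m → ℂ} (hF : F ∈ AddSubmonoid.closure (W (Finset.univ))) :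
    ∃ N : ℕ, TP {k | ∀ i, |k i| ≤ (N : ℤ)} (fun p => (F p).re) := by
  induction hF using AddSubmonoid.closure_induction with
  | mem G hG =>
    obtain ⟨h1, h2, k, h3⟩ := hG
    refine ⟨Finset.univ.sup fun i => (k i).natAbs, {k}, fun _ t => (G (0, t)).re,
      fun _ t => -(G (0, t)).im, ?_, ?_, ?_⟩
    · intro l hl i
      rw [Finset.mem_singleton] at hl
      subst hl
      have := Finset.le_sup (f := fun i => (l i).natAbs) (Finset.mem_univ i)
      rw [Int.abs_eq_natAbs]
      exact_mod_cast this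
    · intro _
      have hc : ContDiff ℝ ∞ fun t : ℝ => G ((0 : Q m), t) :=
        h1.comp (contDiff_const.prodMk contDiff_id)
      have hp : ∀ t : ℝ, G ((0 : Q m), t + 1) = G ((0 : Q m), t) := by
        intro t
        have := h2 ((0 : Q m), t) 0 1
        simp only [Pi.zero_apply, Int.cast_zero, Int.cast_one] at this
        rw [← this]
        congr 1
        refine Prod.ext ?_ rfl
        funext i
        simp
      refine ⟨Complex.reCLM.contDiff.comp hc, (Complex.imCLM.contDiff.comp hc).neg,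
        fun t => ?_, fun t => ?_⟩
      · simp only []
        rw [hp]
      · simp only []
        rw [hp]
    · intro p
      simp only []
      rw [Finset.sum_singleton, W_univ_eq (fun i => h3 i (Finset.mem_univ i)) p, Complex.mul_re]
      have e : (2 * Real.pi * (∑ i, (k i : ℝ) * p.1 i : ℝ) : ℂ) =
          ((2 * Real.pi * ∑ i, (k i : ℝ) * p.1 i : ℝ) : ℂ) := by push_cast; ring
      rw [e, Complex.exp_ofReal_mul_I_re, Complex.exp_ofReal_mul_I_im]
      ring
  | zero => exact ⟨0, by simpa using TP_zero⟩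
  | add x y _ _ h1 h2 =>
    obtain ⟨N, hN⟩ := h1
    obtain ⟨M, hM⟩ := h2
    exact ⟨max N M, by simpa using TP_add hN hM⟩

/-- [TRI] -/
theorem tri : S_TRI := by
  intro m h ε hε hh
  obtain ⟨h1, h2⟩ := hh
  have hc : ContDiff ℝ ∞ (fun p => (h p : ℂ)) := Complex.ofRealCLM.contDiff.comp h1
  have hp : PerV (fun p => (h p : ℂ)) := fun p k l => by
    simp only []
    rw [h2 p k l]
  obtain ⟨F, hF, hcl⟩ := all_cl hc hp Finset.univ ε hε
  obtain ⟨N, hN⟩ := tp_of_mem hF
  refine ⟨N, _, hN, ?_⟩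
  obtain ⟨hFs, hFp⟩ := mem_smooth _ hF
  -- the difference
  set D : E m → ℂ := fun p => F p - (h p : ℂ) with hD
  have hDs : ContDiff ℝ ∞ D := hFs.sub hc
  have e0 : (fun p => (F p).re - h p) = fun p => Complex.reCLM (D p) := by
    funext p
    simp [hD]
  have e1 : fderiv ℝ D = fun p => fderiv ℝ F p - fderiv ℝ (fun p => (h p : ℂ)) p :=
    funext fun p => fderiv_sub (hFs.differentiable (by simp) p) (hc.differentiable (by simp) p)
  have e2 : fderiv ℝ (fderiv ℝ D) = fun p => fderiv ℝ (fderiv ℝ F) p -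
      fderiv ℝ (fderiv ℝ (fun p => (h p : ℂ))) p := by
    rw [e1]
    exact funext fun p => fderiv_sub ((smooth_fderiv hFs).differentiable (by simp) p)
      ((smooth_fderiv hc).differentiable (by simp) p)
  have f1 : fderiv ℝ (fun p => Complex.reCLM (D p)) =
      fun p => (ContinuousLinearMap.compL ℝ (E m) ℂ ℝ Complex.reCLM) (fderiv ℝ D p) := by
    funext p
    have := (Complex.reCLM.hasFDerivAt (x := D p)).comp p
      (hDs.differentiable (by simp) p).hasFDerivAt
    exact this.fderiv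
  have f2 : fderiv ℝ (fderiv ℝ (fun p => Complex.reCLM (D p))) =
      fun p => (ContinuousLinearMap.compL ℝ (E m) ℂ ℝ Complex.reCLM).comp
        (fderiv ℝ (fderiv ℝ D) p) := by
    rw [f1]
    funext p
    have := ((ContinuousLinearMap.compL ℝ (E m) ℂ ℝ Complex.reCLM).hasFDerivAt
      (x := fderiv ℝ D p)).comp p
      ((smooth_fderiv hDs).differentiable (by simp) p).hasFDerivAt
    exact this.fderiv
  have hn : ‖ContinuousLinearMap.compL ℝ (E m) ℂ ℝ Complex.reCLM‖ ≤ 1 := by
    refine ContinuousLinearMap.opNorm_le_bound _ zero_le_one fun L => ?_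
    rw [one_mul, ContinuousLinearMap.compL_apply]
    refine (ContinuousLinearMap.opNorm_comp_le _ _).trans ?_
    rw [Complex.reCLM_norm, one_mul]
  intro p
  obtain ⟨g1, g2, g3⟩ := hcl p
  rw [e0, f2, f1]
  refine ⟨?_, ?_, ?_⟩
  · exact (Complex.abs_re_le_norm _).trans g1
  · refine (ContinuousLinearMap.le_opNorm _ _).trans ?_
    rw [e1]
    exact (mul_le_of_le_one_left (norm_nonneg _) hn).trans g2
  · refine (ContinuousLinearMap.opNorm_comp_le _ _).trans ?_
    rw [e2]
    exact (mul_le_of_le_one_left (norm_nonneg _) hn).trans g3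

end Pool.Agent.Helper41K9.E3T
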