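import Pool.Agent.Helper6K9.E3.Stm

set_option autoImplicit false

/-!
# Averages in one direction: smoothness, commutation with derivatives, approximation
-/

namespace Pool.Agent.Helper41K9.E3T

open Set Filter Topology MeasureTheory
open scoped ContDiff
open Pool.Agent.Helper6K9.ES (Q E Per Sm dX dT Small)

variable {m : ℕ}

/-- the direction of the coordinate `x i` -/
noncomputable def ev (i : Fin (m + 1)) : E m := (Pi.single i 1, 0)

lemma norm_ev (i : Fin (m + 1)) : ‖ev (m := m) i‖ ≤ 1 := by
  unfold ev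
  rw [Prod.norm_def]
  simp only [norm_zero, max_le_iff, zero_le_one, and_true]
  refine (pi_norm_le_iff_of_nonneg zero_le_one).2 fun j => ?_
  by_cases h : j = i
  · subst h; simp
  · simp [Pi.single_eq_of_ne h]

section gen
variable {V : Type} [NormedAddCommGroup V] [NormedSpace ℝ V]

/-- periodic functions with values in `V` -/
def PerV (F : E m → V) : Prop :=
  ∀ (p : E m) (k : Fin (m + 1) → ℤ) (l : ℤ), F (p.1 + (fun i => (k i : ℝ)), p.2 + l) = F p

/-- weighted averages in the direction of `x i` -/
noncomputable def A (w : ℝ → ℝ) (i : Fin (m + 1)) (F : E m → V) (p : E m) : V :=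
  ∫ s in (-(1 / 2) : ℝ)..(1 / 2), w s • F (p + s • ev i)

lemma cont_A {w : ℝ → ℝ} (hw : Continuous w) (i : Fin (m + 1)) {F : E m → V} (hF : Continuous F) :
    Continuous (A w i F) := by
  unfold A
  apply intervalIntegral.continuous_parametric_intervalIntegral_of_continuous'
  fun_prop

lemma hasFDerivAt_A {w : ℝ → ℝ} (hw : Continuous w) (i : Fin (m + 1)) {F : E m → V}
    (hF : ContDiff ℝ 1 F) (p : E m) :
    HasFDerivAt (A w i F) (A w i (fderiv ℝ F) p) p := by
  have hF' : Continuous (fderiv ℝ F) := hF.continuous_fderiv (by norm_num)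
  have hFc : Continuous F := hF.continuous
  have hcomp : IsCompact (Metric.closedBall p 1 ×ˢ Icc (-(1 / 2) : ℝ) (1 / 2)) :=
    (isCompact_closedBall p 1).prod isCompact_Icc
  obtain ⟨C, hC⟩ := hcomp.exists_bound_of_continuousOn
    (f := fun q : E m × ℝ => w q.2 • fderiv ℝ F (q.1 + q.2 • ev i))
    (by fun_prop : Continuous fun q : E m × ℝ =>
      w q.2 • fderiv ℝ F (q.1 + q.2 • ev i)).continuousOn
  unfold A
  refine intervalIntegral.hasFDerivAt_integral_of_dominated_of_fderiv_le
    (F := fun q s => w s • F (q + s • ev i)) (F' := fun q s => w s • fderiv ℝ F (q + s • ev i))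
    (bound := fun _ => C) (s := Metric.ball p 1) (Metric.ball_mem_nhds p one_pos) ?_ ?_ ?_ ?_ ?_ ?_
  · refine Eventually.of_forall fun q => ?_
    exact (by fun_prop : Continuous fun s : ℝ => w s • F (q + s • ev i)).aestronglyMeasurable
  · exact (by fun_prop : Continuous fun s : ℝ => w s • F (p + s • ev i)).intervalIntegrable _ _
  · exact (by fun_prop : Continuous fun s : ℝ =>
      w s • fderiv ℝ F (p + s • ev i)).aestronglyMeasurable
  · refine Eventually.of_forall fun s hs q hq => ?_
    rw [uIoc_of_le (by norm_num)] at hs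
    exact hC (q, s) ⟨Metric.ball_subset_closedBall hq, ⟨hs.1.le, hs.2⟩⟩
  · exact intervalIntegrable_const
  · refine Eventually.of_forall fun s _ q _ => ?_
    have h1 : HasFDerivAt F (fderiv ℝ F (q + s • ev i)) (q + s • ev i) :=
      (hF.differentiable (by norm_num) _).hasFDerivAt
    have h2 : HasFDerivAt (fun q : E m => q + s • ev i) (ContinuousLinearMap.id ℝ (E m)) q :=
      (hasFDerivAt_id q).add_const _
    have h3 := h1.comp q h2
    rw [ContinuousLinearMap.comp_id] at h3
    exact h3.const_smul (w s)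

lemma fderiv_A {w : ℝ → ℝ} (hw : Continuous w) (i : Fin (m + 1)) {F : E m → V}
    (hF : ContDiff ℝ 1 F) : fderiv ℝ (A w i F) = A w i (fderiv ℝ F) :=
  funext fun p => (hasFDerivAt_A hw i hF p).fderiv

end gen

lemma contDiff_A_nat {w : ℝ → ℝ} (hw : Continuous w) (i : Fin (m + 1)) (n : ℕ) :
    ∀ {V : Type} [NormedAddCommGroup V] [NormedSpace ℝ V] {F : E m → V}, ContDiff ℝ n F →
      ContDiff ℝ n (A w i F) := by
  induction n with
  | zero =>
    intro V _ _ F hF
    rw [Nat.cast_zero, contDiff_zero] at hF ⊢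
    exact cont_A hw i hF
  | succ n ih =>
    intro V _ _ F hF
    have h1 : ContDiff ℝ 1 F := hF.of_le (by
      rw [Nat.cast_succ]; exact le_add_self)
    rw [Nat.cast_succ, contDiff_succ_iff_fderiv] at hF ⊢
    refine ⟨fun p => (hasFDerivAt_A hw i h1 p).differentiableAt, fun h => ?_, ?_⟩
    · exact absurd h (by simp)
    · rw [fderiv_A hw i h1]
      exact ih hF.2.2

lemma contDiff_A {w : ℝ → ℝ} (hw : Continuous w) (i : Fin (m + 1)) {V : Type}
    [NormedAddCommGroup V] [NormedSpace ℝ V] {F : E m → V} (hF : ContDiff ℝ ∞ F) :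
    ContDiff ℝ ∞ (A w i F) := by
  rw [contDiff_infty] at hF ⊢
  exact fun n => contDiff_A_nat hw i n (hF n)

/-! ### the kernel -/

/-- the integral of the kernel -/
noncomputable def I0 (N : ℕ) : ℝ := ∫ s in (-(1 / 2) : ℝ)..(1 / 2), (Real.cos (Real.pi * s) ^ 2) ^ N

/-- the kernel -/
noncomputable def ker (N : ℕ) (s : ℝ) : ℝ := (I0 N)⁻¹ * (Real.cos (Real.pi * s) ^ 2) ^ N

lemma I0_pos (N : ℕ) : 0 < I0 N := by
  unfold I0
  apply intervalIntegral.intervalIntegral_pos_of_pos_on
  · exact (by fun_prop : Continuous fun s : ℝ =>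
      (Real.cos (Real.pi * s) ^ 2) ^ N).intervalIntegrable _ _
  · intro s hs
    have : 0 < Real.cos (Real.pi * s) := by
      apply Real.cos_pos_of_mem_Ioo
      constructor
      · nlinarith [Real.pi_pos, hs.1]
      · nlinarith [Real.pi_pos, hs.2]
    positivity
  · norm_num

lemma ker_nonneg (N : ℕ) (s : ℝ) : 0 ≤ ker N s := by
  unfold ker
  have := I0_pos N
  positivity

lemma ker_cont (N : ℕ) : Continuous (ker N) := by
  unfold ker; fun_prop

lemma ker_int (N : ℕ) : ∫ s in (-(1 / 2) : ℝ)..(1 / 2), ker N s = 1 := by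
  unfold ker
  rw [intervalIntegral.integral_const_mul]
  exact inv_mul_cancel₀ (I0_pos N).ne'

lemma ker_tendsto :
    Tendsto (fun N : ℕ => ∫ s in (-(1 / 2) : ℝ)..(1 / 2), ker N s * |s|) atTop (𝓝 0) := by
  have h := tendsto_setIntegral_pow_smul_of_unique_maximum_of_isCompact_of_continuousOn
    (μ := (volume : Measure ℝ)) (s := Icc (-(1 / 2) : ℝ) (1 / 2)) (x₀ := (0 : ℝ))
    (c := fun s : ℝ => Real.cos (Real.pi * s) ^ 2) (g := fun s : ℝ => |s|) isCompact_Icc
    (by fun_prop) ?_ ?_ ?_ ?_ ?_
  · simp only [abs_zero] at h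
    refine h.congr fun N => ?_
    rw [integral_Icc_eq_integral_Ioc, integral_Icc_eq_integral_Ioc,
      ← intervalIntegral.integral_of_le (by norm_num),
      ← intervalIntegral.integral_of_le (by norm_num)]
    unfold ker
    simp only [mul_assoc, smul_eq_mul]
    rw [intervalIntegral.integral_const_mul]
    rfl
  · intro y hy hy0
    simp only [mul_zero, Real.cos_zero, one_pow]
    have h1 : 0 < Real.sin (Real.pi * y) ^ 2 := by
      have : Real.sin (Real.pi * y) ≠ 0 := by
        rcases lt_or_gt_of_ne hy0 with h | h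
        · have h2 : Real.sin (Real.pi * y) < 0 := by
            apply Real.sin_neg_of_neg_of_neg_pi_lt
            · nlinarith [Real.pi_pos]
            · nlinarith [Real.pi_pos, hy.1]
          exact h2.ne
        · have h2 : 0 < Real.sin (Real.pi * y) := by
            apply Real.sin_pos_of_pos_of_lt_pi
            · nlinarith [Real.pi_pos]
            · nlinarith [Real.pi_pos, hy.2]
          exact h2.ne'
      positivity
    nlinarith [Real.sin_sq_add_cos_sq (Real.pi * y)]
  · intro y _
    positivity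
  · simp
  · rw [interior_Icc]
    rw [closure_Ioo (by norm_num)]
    constructor <;> norm_num
  · fun_prop

end Pool.Agent.Helper41K9.E3T
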